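import Pool.Agent.H86.IR.Targets2

/-!
# Products of inner radii: module CIR
-/

set_option autoImplicit false

namespace Pool.Agent.H86.IR

/-- splitting a sum by parity -/
theorem cir_split (m : ℕ) (f : ℕ → ℝ) :
    ∑ i ∈ Finset.range (2 * m), f i = ∑ i ∈ Finset.range m, (f (2 * i) + f (2 * i + 1)) := by
  induction m with
  | zero => simp
  | succ m ih =>
    have e : 2 * (m + 1) = 2 * m + 1 + 1 := by ring
    rw [e, Finset.sum_range_succ, Finset.sum_range_succ, ih, Finset.sum_range_succ, add_assoc]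

/-- the quotient of the products -/
noncomputable def cirho (m : ℕ) (p q : ℕ → ℝ) (i : ℕ) : ℝ :=
  (∏ j ∈ Finset.range m, |2 * Real.sin ((p i - q j) / 2)|) /
    (∏ j ∈ (Finset.range m).erase i, |2 * Real.sin ((p i - p j) / 2)|)

theorem cir_log {m : ℕ} {p q : ℕ → ℝ} {i : ℕ} (hi : i < m)
    (h1 : ∀ j < m, Real.sin ((p i - q j) / 2) ≠ 0)
    (h2 : ∀ j < m, j ≠ i → Real.sin ((p i - p j) / 2) ≠ 0) :
    0 < cirho m p q i ∧
    ∑ j ∈ Finset.range m, Real.log |2 * Real.sin ((p i - q j) / 2)| -
      ∑ j ∈ Finset.range m, Real.log |2 * Real.sin ((p i - p j) / 2)| =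
      Real.log (cirho m p q i) := by
  have a1 : ∀ j ∈ Finset.range m, 0 < |2 * Real.sin ((p i - q j) / 2)| := fun j hj =>
    abs_pos.2 (mul_ne_zero two_ne_zero (h1 j (Finset.mem_range.1 hj)))
  have a2 : ∀ j ∈ (Finset.range m).erase i, 0 < |2 * Real.sin ((p i - p j) / 2)| := fun j hj =>
    abs_pos.2 (mul_ne_zero two_ne_zero (h2 j (Finset.mem_range.1 (Finset.mem_of_mem_erase hj))
      (Finset.ne_of_mem_erase hj)))
  have b1 := Finset.prod_pos a1
  have b2 := Finset.prod_pos a2
  refine ⟨div_pos b1 b2, ?_⟩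
  unfold cirho
  rw [Real.log_div b1.ne' b2.ne', Real.log_prod fun j hj => (a1 j hj).ne',
    Real.log_prod fun j hj => (a2 j hj).ne',
    ← Finset.add_sum_erase (Finset.range m) (fun j => Real.log |2 * Real.sin ((p i - p j) / 2)|)
      (Finset.mem_range.2 hi)]
  simp

theorem cir_sum {m : ℕ} (hm : 1 ≤ m) (ρ : ℕ → ℝ) (h : ∀ i < m, 0 < ρ i)
    (hs : ∑ i ∈ Finset.range m, ρ i ≤ 2) :
    ∑ i ∈ Finset.range m, Real.log (ρ i) ≤ m * Real.log (2 / m) := by
  have hm' : (0 : ℝ) < m := by exact_mod_cast hm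
  have h1 : ∀ i ∈ Finset.range m, Real.log (ρ i) ≤ Real.log (2 / m) + ρ i * (m / 2) - 1 := by
    intro i hi
    have hi' := h i (Finset.mem_range.1 hi)
    have h2 : 0 < ρ i * (m / 2) := by positivity
    have h3 := Real.log_le_sub_one_of_pos h2
    have h4 : Real.log (ρ i) = Real.log (2 / m) + Real.log (ρ i * (m / 2)) := by
      rw [← Real.log_mul (by positivity) h2.ne']
      congr 1
      field_simp
    linarith
  refine (Finset.sum_le_sum h1).trans ?_
  rw [Finset.sum_sub_distrib, Finset.sum_add_distrib, ← Finset.sum_mul]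
  simp only [Finset.sum_const, Finset.card_range, nsmul_eq_mul, mul_one]
  have h5 : (∑ i ∈ Finset.range m, ρ i) * (m / 2) ≤ 2 * (m / 2) :=
    mul_le_mul_of_nonneg_right hs (by positivity)
  linarith

theorem cir_sin {u : ℝ} (h0 : u ≠ 0) (h1 : |u| < 2 * Real.pi) : Real.sin (u / 2) ≠ 0 := by
  rcases lt_or_gt_of_ne h0 with h | h
  · rw [abs_of_neg h] at h1
    exact (Real.sin_neg_of_neg_of_neg_pi_lt (by linarith) (by linarith)).ne
  · rw [abs_of_pos h] at h1
    exact (Real.sin_pos_of_pos_of_lt_pi (by linarith) (by linarith)).ne'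

/-- CIR: alternating charges on the circle -/
theorem cir (hRHO : T_RHO) : T_CIR := by
  intro m s hm hs hl
  have hsle : ∀ i j, i ≤ j → j < 2 * m → s i ≤ s j := by
    intro i j hij hj
    rcases hij.eq_or_lt with rfl | h
    · exact le_rfl
    · exact (hs i j h hj).le
  -- differences
  have hd : ∀ i j, i < 2 * m → j < 2 * m → i ≠ j → Real.sin ((s i - s j) / 2) ≠ 0 := by
    have key : ∀ i j, i < j → j < 2 * m → 0 < s j - s i ∧ s j - s i < 2 * Real.pi := by
      intro i j hij hj
      have h1 := hs i j hij hj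
      have h2 := hsle 0 i (Nat.zero_le _) (by omega)
      have h3 := hsle j (2 * m - 1) (by omega) (by omega)
      constructor <;> linarith
    intro i j hi hj hij
    rcases lt_or_gt_of_ne hij with h | h
    · obtain ⟨h1, h2⟩ := key i j h hj
      refine cir_sin (by linarith [h1]) ?_
      rw [abs_sub_comm, abs_of_pos h1]
      exact h2
    · obtain ⟨h1, h2⟩ := key j i h hi
      refine cir_sin h1.ne' ?_
      rw [abs_of_pos h1]
      exact h2
  -- the first family
  have hA : ∀ i < m, 0 < cirho m (fun k => s (2 * k)) (fun k => s (2 * k + 1)) i ∧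
      ∑ j ∈ Finset.range m, Real.log |2 * Real.sin ((s (2 * i) - s (2 * j + 1)) / 2)| -
      ∑ j ∈ Finset.range m, Real.log |2 * Real.sin ((s (2 * i) - s (2 * j)) / 2)| =
      Real.log (cirho m (fun k => s (2 * k)) (fun k => s (2 * k + 1)) i) := fun i hi =>
    cir_log (p := fun k => s (2 * k)) (q := fun k => s (2 * k + 1)) hi
      (fun j hj => hd _ _ (by omega) (by omega) (by omega))
      (fun j hj hij => hd _ _ (by omega) (by omega) (by omega))
  have hB : ∀ i < m, 0 < cirho m (fun k => s (2 * k + 1)) (fun k => s (2 * k)) i ∧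
      ∑ j ∈ Finset.range m, Real.log |2 * Real.sin ((s (2 * i + 1) - s (2 * j)) / 2)| -
      ∑ j ∈ Finset.range m, Real.log |2 * Real.sin ((s (2 * i + 1) - s (2 * j + 1)) / 2)| =
      Real.log (cirho m (fun k => s (2 * k + 1)) (fun k => s (2 * k)) i) := fun i hi =>
    cir_log (p := fun k => s (2 * k + 1)) (q := fun k => s (2 * k)) hi
      (fun j hj => hd _ _ (by omega) (by omega) (by omega))
      (fun j hj hij => hd _ _ (by omega) (by omega) (by omega))
  have hA2 : ∑ i ∈ Finset.range m, cirho m (fun k => s (2 * k)) (fun k => s (2 * k + 1)) i ≤ 2 := by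
    refine hRHO m (fun k => s (2 * k)) (fun k => s (2 * k + 1)) hm ?_ ?_ ?_
    · intro i hi
      exact hs _ _ (by omega) (by omega)
    · intro i hi
      exact hs _ _ (by omega) (by omega)
    · show s (2 * (m - 1) + 1) < s (2 * 0) + 2 * Real.pi
      have e : 2 * (m - 1) + 1 = 2 * m - 1 := by omega
      rw [e]
      exact hl
  have hB2 : ∑ i ∈ Finset.range m, cirho m (fun k => s (2 * k + 1)) (fun k => s (2 * k)) i ≤ 2 := by
    set x' : ℕ → ℝ := fun i => if i + 1 < m then s (2 * i + 2) else s 0 + 2 * Real.pi with hx'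
    have h1 := hRHO m (fun k => s (2 * k + 1)) x' hm ?_ ?_ ?_
    · refine le_trans (le_of_eq (Finset.sum_congr rfl fun i _ => ?_)) h1
      unfold cirho
      congr 1
      obtain ⟨m', rfl⟩ : ∃ m', m = m' + 1 := ⟨m - 1, by omega⟩
      rw [Finset.prod_range_succ', Finset.prod_range_succ]
      congr 1
      · refine Finset.prod_congr rfl fun j hj => ?_
        have hj' := Finset.mem_range.1 hj
        simp only [hx']
        rw [if_pos (by omega)]
        congr 4
      · simp only [hx']
        rw [if_neg (by omega)]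
        have e : (s (2 * i + 1) - (s 0 + 2 * Real.pi)) / 2 =
            (s (2 * i + 1) - s (2 * 0)) / 2 - Real.pi := by
          rw [Nat.mul_zero]
          ring
        rw [e, Real.sin_sub_pi, mul_neg, abs_neg]
    · intro i hi
      simp only [hx']
      split_ifs with h
      · exact hs _ _ (by omega) (by omega)
      · have e : 2 * i + 1 = 2 * m - 1 := by omega
        rw [e]
        exact hl
    · intro i hi
      simp only [hx']
      rw [if_pos hi]
      exact hs _ _ (by omega) (by omega)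
    · simp only [hx']
      rw [if_neg (by omega)]
      have := hs 0 (2 * 0 + 1) (by omega) (by omega)
      linarith
  have e1 := cir_sum hm _ (fun i hi => (hA i hi).1) hA2
  have e2 := cir_sum hm _ (fun i hi => (hB i hi).1) hB2
  have hsq : ∀ i : ℕ, (-1 : ℝ) ^ (2 * i) = 1 := fun i => by rw [pow_mul]; norm_num
  have hsq' : ∀ i : ℕ, (-1 : ℝ) ^ (2 * i + 1) = -1 := fun i => by rw [pow_succ, hsq, one_mul]
  have e3 : -(∑ i ∈ Finset.range (2 * m), ∑ j ∈ Finset.range (2 * m), (-1) ^ i * (-1) ^ j *
      Real.log |2 * Real.sin ((s i - s j) / 2)|) =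
      ∑ i ∈ Finset.range m, Real.log (cirho m (fun k => s (2 * k)) (fun k => s (2 * k + 1)) i) +
      ∑ i ∈ Finset.range m, Real.log (cirho m (fun k => s (2 * k + 1)) (fun k => s (2 * k)) i) := by
    rw [cir_split, ← Finset.sum_add_distrib, ← Finset.sum_neg_distrib]
    refine Finset.sum_congr rfl fun i hi => ?_
    have hi' := Finset.mem_range.1 hi
    rw [← (hA i hi').2, ← (hB i hi').2, cir_split, cir_split]
    simp only [hsq, hsq']
    rw [← Finset.sum_add_distrib, ← Finset.sum_sub_distrib, ← Finset.sum_sub_distrib,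
      ← Finset.sum_add_distrib, ← Finset.sum_neg_distrib]
    refine Finset.sum_congr rfl fun j _ => ?_
    ring
  rw [e3]
  linarith

end Pool.Agent.H86.IR
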