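import Pool.Agent.H86.IR.Targets2

/-!
# Products of inner radii: module ETA
-/

set_option autoImplicit false

namespace Pool.Agent.H86.IR

theorem eta_eq_zet_add {t : ℝ} (ht : t ∈ Set.Ico 0 (2 * Real.pi)) :
    eta t = zet t + Real.log (2 * Real.pi - t) := by
  have hpi := Real.pi_pos
  obtain ⟨h0, h1⟩ := ht
  rcases h0.eq_or_lt with rfl | h0
  · unfold eta zet
    rw [if_pos (Or.inl rfl)]
    simp
  · have h2 : 0 < 2 * Real.pi - t := by linarith
    have h3 : 0 < Real.sin (t / 2) := Real.sin_pos_of_pos_of_lt_pi (by linarith) (by linarith)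
    unfold eta zet
    rw [if_neg (by rintro (h | h) <;> linarith)]
    rw [← Real.log_mul (by positivity) h2.ne']
    congr 1
    field_simp

theorem eta_concave_log : ConcaveOn ℝ (Set.Ico 0 (2 * Real.pi))
    (fun t => Real.log (2 * Real.pi - t)) := by
  refine ⟨convex_Ico _ _, fun x hx y hy a b ha hb hab => ?_⟩
  have h := strictConcaveOn_log_Ioi.concaveOn.2 (x := 2 * Real.pi - x) (y := 2 * Real.pi - y)
    (sub_pos.2 hx.2) (sub_pos.2 hy.2) ha hb hab
  have e : a • (2 * Real.pi - x) + b • (2 * Real.pi - y) = 2 * Real.pi - (a • x + b • y) := by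
    simp only [smul_eq_mul]
    have : b = 1 - a := by linarith
    rw [this]
    ring
  rw [e] at h
  exact h

/-- ETA: concavity of `eta` -/
theorem eta_ (hEUL : T_EUL) : T_ETA := by
  constructor
  · have h1 : ConcaveOn ℝ (Set.Ico 0 (2 * Real.pi)) zet :=
      ConcaveOn.subset hEUL Set.Ico_subset_Icc_self (convex_Ico _ _)
    refine (h1.add eta_concave_log).congr fun t ht => ?_
    exact (eta_eq_zet_add ht).symm
  · rintro t ⟨h0, h1⟩
    rcases h0.eq_or_lt with rfl | h0
    · unfold eta
      simp
    · unfold eta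
      have h3 : 0 < Real.sin (t / 2) := Real.sin_pos_of_pos_of_lt_pi (by linarith) (by linarith)
      have h4 := (Real.sin_lt (x := t / 2) (by linarith)).le
      refine Real.log_nonpos (by positivity) ?_
      rw [div_le_one h0]
      linarith

end Pool.Agent.H86.IR
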