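import Pool.Agent.H86.IR.Targets2

/-!
# Products of inner radii: module GEN
-/

set_option autoImplicit false

open Complex Topology Filter InnerProductSpace
open scoped OnePoint

namespace Pool.Agent.H86.IR

/-- GEN: the upper bound for generalized inner radii -/
theorem gen (hUPP : T_UPP) : T_GEN := by
  intro n B a r hn hA hr
  have h1 : ∀ k, ∃ u : ℕ → ℝ, Tendsto u atTop (𝓝 (r k)) ∧
      ∀ m, u m ∈ {ρ : ℝ | ∃ D ⊆ B k, IsOpen D ∧ IsConnected D ∧ (a k : OnePoint ℂ) ∈ D ∧
        HasIR D (a k) ρ} := by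
    intro k
    obtain ⟨u, -, -, hu, hu'⟩ := (hr k).exists_seq_monotone_tendsto (hr k).nonempty
    exact ⟨u, hu, hu'⟩
  choose u hu hu' using h1
  have h2 : Tendsto (fun m => ∏ k, u k m) atTop (𝓝 (∏ k, r k)) :=
    tendsto_finsetProd _ fun k _ => hu k
  refine le_of_tendsto' h2 fun m => ?_
  choose D hD using fun k => hu' k m
  refine hUPP n hn _ ⟨D, a, fun k => u k m, ?_, fun k => (hD k).2.2.2.2, rfl⟩
  exact
    { op := fun k => ⟨(hD k).2.1, (hD k).2.2.1⟩
      dis := fun j k hjk => (hA.dis hjk).mono (hD j).1 (hD k).1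
      mem := fun k => (hD k).2.2.2.1
      seg := hA.seg }

end Pool.Agent.H86.IR
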